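import Pool.Agent.Helper188.Morrey.Defs

set_option autoImplicit false

open Matrix Set Filter Topology

namespace Pool.Agent.Helper188.Morrey

abbrev M2 := Matrix (Fin 2) (Fin 2) ℝ

theorem det_eq_zero_of_rank {H : M2} (h : H.rank ≤ 1) : H.det = 0 := by
  by_contra hd
  have := rank_of_det_ne_zero hd
  simp at this
  omega

theorem rank_eq_one_of_det {H : M2} (h0 : H ≠ 0) (hd : H.det = 0) : H.rank = 1 := by
  have h1 : H.rank ≠ 0 := by
    intro h
    apply h0
    rw [Matrix.rank, Submodule.finrank_eq_zero, LinearMap.range_eq_bot] at h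
    ext i j
    have := congrArg (fun L : (Fin 2 → ℝ) →ₗ[ℝ] (Fin 2 → ℝ) => L (Pi.single j 1) i) h
    simpa using this
  have h2 : H.rank ≤ 1 := by
    rw [det_fin_two] at hd
    by_cases ha : H 0 0 = 0
    · by_cases hb : H 0 1 = 0
      · have : H = vecMulVec ![0, 1] ![H 1 0, H 1 1] := by
          ext i j; fin_cases i <;> fin_cases j <;> simp [vecMulVec_apply, ha, hb]
        rw [this]; exact rank_vecMulVec_le _ _
      · have hc : H 1 0 = 0 := by
          have : H 0 1 * H 1 0 = 0 := by rw [ha] at hd; linarith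
          rcases mul_eq_zero.1 this with h | h
          · exact absurd h hb
          · exact h
        have : H = vecMulVec ![1, H 1 1 / H 0 1] ![0, H 0 1] := by
          ext i j; fin_cases i <;> fin_cases j <;> simp [vecMulVec_apply, ha, hb, hc]
        rw [this]; exact rank_vecMulVec_le _ _
    · have : H = vecMulVec ![1, H 1 0 / H 0 0] ![H 0 0, H 0 1] := by
        ext i j; fin_cases i <;> fin_cases j <;> simp [vecMulVec_apply, ha]
        field_simp
        linarith
      rw [this]; exact rank_vecMulVec_le _ _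
  omega

variable {W : M2 → ℝ}

theorem RankOneConvex.seg (hW : RankOneConvex W) (F H : M2) (hd : H.det = 0) {t : ℝ}
    (h0 : 0 ≤ t) (h1 : t ≤ 1) : W (F + t • H) ≤ (1 - t) * W F + t * W (F + H) := by
  by_cases hH : H = 0
  · subst hH
    simp only [smul_zero, add_zero]
    linarith
  · have h := hW F H (rank_eq_one_of_det hH hd) t h0 h1
    have e : (1 - t) • F + t • (F + H) = F + t • H := by
      rw [smul_add, sub_smul, one_smul]; abel
    rwa [e] at h

theorem det_smul_zero {H : M2} (hd : H.det = 0) (c : ℝ) : (c • H).det = 0 := by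
  rw [det_smul, hd, mul_zero]

theorem RankOneConvex.line (hW : RankOneConvex W) (F H : M2) (hd : H.det = 0) :
    ConvexOn ℝ univ (fun t : ℝ => W (F + t • H)) := by
  refine ⟨convex_univ, fun x _ y _ a b ha hb hab => ?_⟩
  have h := hW.seg (F + x • H) ((y - x) • H) (det_smul_zero hd _) hb (by linarith)
  have e1 : F + x • H + b • (y - x) • H = F + (a • x + b • y) • H := by
    have : a = 1 - b := by linarith
    subst this
    simp only [smul_eq_mul]
    module
  have e2 : F + x • H + (y - x) • H = F + y • H := by module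
  rw [e1, e2] at h
  have : a = 1 - b := by linarith
  simp only [smul_eq_mul] at h ⊢
  rw [this] at h ⊢
  exact h

theorem cont_step {Y : Type*} [TopologicalSpace Y] (f : ℝ → Y → ℝ)
    (hconv : ∀ y, ConvexOn ℝ univ (fun x => f x y)) (hcont : ∀ x, Continuous (f x)) :
    Continuous (fun p : ℝ × Y => f p.1 p.2) := by
  rw [continuous_iff_continuousAt]
  rintro ⟨x0, y0⟩
  set M : Y → ℝ := fun y => max (f (x0 + 1) y) (f (x0 - 1) y) with hM
  have hMc : Continuous M := (hcont _).max (hcont _)
  have up : ∀ s t : ℝ, 0 ≤ t → t ≤ 1 → ∀ y, f (x0 + t * s) y ≤ (1 - t) * f x0 y + t * f (x0 + s) y := by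
    intro s t h0 h1 y
    have h := (hconv y).2 (mem_univ x0) (mem_univ (x0 + s)) (by linarith : 0 ≤ 1 - t) h0 (by ring)
    simp only [smul_eq_mul] at h
    have e : (1 - t) * x0 + t * (x0 + s) = x0 + t * s := by ring
    rwa [e] at h
  have lo : ∀ s t : ℝ, 0 ≤ t → ∀ y, (1 + t) * f x0 y - t * f (x0 - s) y ≤ f (x0 + t * s) y := by
    intro s t h0 y
    have ht : 0 < 1 + t := by linarith
    have h := (hconv y).2 (mem_univ (x0 + t * s)) (mem_univ (x0 - s))
      (by positivity : 0 ≤ 1 / (1 + t)) (by positivity : 0 ≤ t / (1 + t)) (by field_simp)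
    simp only [smul_eq_mul] at h
    have e : 1 / (1 + t) * (x0 + t * s) + t / (1 + t) * (x0 - s) = x0 := by field_simp; ring
    rw [e] at h
    have e2 : 1 / (1 + t) * f (x0 + t * s) y + t / (1 + t) * f (x0 - s) y
        = (f (x0 + t * s) y + t * f (x0 - s) y) / (1 + t) := by ring
    rw [e2, le_div_iff₀ ht] at h
    linarith
  have hlo : Tendsto (fun p : ℝ × Y => (1 + |p.1 - x0|) * f x0 p.2 - |p.1 - x0| * M p.2)
      (𝓝 (x0, y0)) (𝓝 (f x0 y0)) := by
    have : Continuous (fun p : ℝ × Y => (1 + |p.1 - x0|) * f x0 p.2 - |p.1 - x0| * M p.2) := by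
      have := hcont x0
      fun_prop
    simpa using this.tendsto (x0, y0)
  have hup : Tendsto (fun p : ℝ × Y => (1 - |p.1 - x0|) * f x0 p.2 + |p.1 - x0| * M p.2)
      (𝓝 (x0, y0)) (𝓝 (f x0 y0)) := by
    have : Continuous (fun p : ℝ × Y => (1 - |p.1 - x0|) * f x0 p.2 + |p.1 - x0| * M p.2) := by
      have := hcont x0
      fun_prop
    simpa using this.tendsto (x0, y0)
  have hev : ∀ᶠ p : ℝ × Y in 𝓝 (x0, y0), |p.1 - x0| ≤ 1 := by
    have hc : Continuous (fun p : ℝ × Y => |p.1 - x0|) := by fun_prop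
    have := hc.tendsto (x0, y0)
    simp only [sub_self, abs_zero] at this
    exact (this.eventually (gt_mem_nhds (by norm_num : (0:ℝ) < 1))).mono fun p hp => hp.le
  refine tendsto_of_tendsto_of_tendsto_of_le_of_le' hlo hup ?_ ?_
  · filter_upwards [hev] with p hp
    have h0 : 0 ≤ |p.1 - x0| := abs_nonneg _
    rcases le_total 0 (p.1 - x0) with h | h
    · have h1 := lo 1 |p.1 - x0| h0 p.2
      have e : x0 + |p.1 - x0| * 1 = p.1 := by rw [abs_of_nonneg h]; ring
      rw [e] at h1
      have h2 : f (x0 - 1) p.2 ≤ M p.2 := le_max_right _ _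
      nlinarith
    · have h1 := lo (-1) |p.1 - x0| h0 p.2
      have e : x0 + |p.1 - x0| * (-1) = p.1 := by rw [abs_of_nonpos h]; ring
      rw [e, sub_neg_eq_add] at h1
      have h2 : f (x0 + 1) p.2 ≤ M p.2 := le_max_left _ _
      nlinarith
  · filter_upwards [hev] with p hp
    have h0 : 0 ≤ |p.1 - x0| := abs_nonneg _
    rcases le_total 0 (p.1 - x0) with h | h
    · have h1 := up 1 |p.1 - x0| h0 hp p.2
      have e : x0 + |p.1 - x0| * 1 = p.1 := by rw [abs_of_nonneg h]; ring
      rw [e] at h1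
      have h2 : f (x0 + 1) p.2 ≤ M p.2 := le_max_left _ _
      nlinarith
    · have h1 := up (-1) |p.1 - x0| h0 hp p.2
      have e : x0 + |p.1 - x0| * (-1) = p.1 := by rw [abs_of_nonpos h]; ring
      rw [e, ← sub_eq_add_neg] at h1
      have h2 : f (x0 - 1) p.2 ≤ M p.2 := le_max_right _ _
      nlinarith

/-- rank-one convex functions are continuous -/
theorem RankOneConvex.continuous (hW : RankOneConvex W) : Continuous W := by
  have c1 : ∀ a b c : ℝ, Continuous (fun d : ℝ => W !![a, b; c, d]) := by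
    intro a b c
    have h := hW.line !![a, b; c, 0] !![0, 0; 0, 1] (by simp [det_fin_two])
    have e : (fun t : ℝ => W (!![a, b; c, 0] + t • !![0, 0; 0, 1])) = fun d => W !![a, b; c, d] := by
      funext d; congr 1; ext i j; fin_cases i <;> fin_cases j <;> simp
    rw [e] at h
    exact continuousOn_univ.1 (h.continuousOn isOpen_univ)
  have c2 : ∀ a b : ℝ, Continuous (fun q : ℝ × ℝ => W !![a, b; q.1, q.2]) := by
    intro a b
    refine cont_step (fun c d => W !![a, b; c, d]) (fun d => ?_) (c1 a b)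
    have h := hW.line !![a, b; 0, d] !![0, 0; 1, 0] (by simp [det_fin_two])
    have e : (fun t : ℝ => W (!![a, b; 0, d] + t • !![0, 0; 1, 0])) = fun c => W !![a, b; c, d] := by
      funext c; congr 1; ext i j; fin_cases i <;> fin_cases j <;> simp
    rwa [e] at h
  have c3 : ∀ a : ℝ, Continuous (fun q : ℝ × ℝ × ℝ => W !![a, q.1; q.2.1, q.2.2]) := by
    intro a
    refine cont_step (fun b (q : ℝ × ℝ) => W !![a, b; q.1, q.2]) (fun q => ?_) (c2 a)
    have h := hW.line !![a, 0; q.1, q.2] !![0, 1; 0, 0] (by simp [det_fin_two])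
    have e : (fun t : ℝ => W (!![a, 0; q.1, q.2] + t • !![0, 1; 0, 0]))
        = fun b => W !![a, b; q.1, q.2] := by
      funext c; congr 1; ext i j; fin_cases i <;> fin_cases j <;> simp
    rwa [e] at h
  have c4 : Continuous (fun q : ℝ × ℝ × ℝ × ℝ => W !![q.1, q.2.1; q.2.2.1, q.2.2.2]) := by
    refine cont_step (fun a (q : ℝ × ℝ × ℝ) => W !![a, q.1; q.2.1, q.2.2]) (fun q => ?_) c3
    have h := hW.line !![0, q.1; q.2.1, q.2.2] !![1, 0; 0, 0] (by simp [det_fin_two])
    have e : (fun t : ℝ => W (!![0, q.1; q.2.1, q.2.2] + t • !![1, 0; 0, 0]))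
        = fun a => W !![a, q.1; q.2.1, q.2.2] := by
      funext c; congr 1; ext i j; fin_cases i <;> fin_cases j <;> simp
    rwa [e] at h
  have hφ : Continuous (fun F : M2 => ((F 0 0, F 0 1, F 1 0, F 1 1) : ℝ × ℝ × ℝ × ℝ)) := by
    fun_prop
  have := c4.comp hφ
  have e : (fun q : ℝ × ℝ × ℝ × ℝ => W !![q.1, q.2.1; q.2.2.1, q.2.2.2]) ∘
      (fun F : M2 => ((F 0 0, F 0 1, F 1 0, F 1 1) : ℝ × ℝ × ℝ × ℝ)) = W := by
    funext F
    simp only [Function.comp]
    congr 1
    ext i j; fin_cases i <;> fin_cases j <;> rfl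
  rwa [e] at this

end Pool.Agent.Helper188.Morrey
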