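import Mathlib

set_option autoImplicit false

open Matrix

namespace Pool.Agent.Helper188.Morrey

/-- Rank-one convexity of a real function of real `2 × 2` matrices. -/
def RankOneConvex (W : Matrix (Fin 2) (Fin 2) ℝ → ℝ) : Prop :=
  ∀ F H : Matrix (Fin 2) (Fin 2) ℝ, H.rank = 1 → ∀ t : ℝ, 0 ≤ t → t ≤ 1 →
    W ((1 - t) • F + t • (F + H)) ≤ (1 - t) * W F + t * W (F + H)

/-- The gradient matrix of a map of the plane. -/
noncomputable def grad (ϑ : (Fin 2 → ℝ) → (Fin 2 → ℝ)) (x : Fin 2 → ℝ) :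
    Matrix (Fin 2) (Fin 2) ℝ :=
  LinearMap.toMatrix' ((fderiv ℝ ϑ x : (Fin 2 → ℝ) →L[ℝ] (Fin 2 → ℝ)) :
    (Fin 2 → ℝ) →ₗ[ℝ] (Fin 2 → ℝ))

/-- The cross product of two plane vectors. -/
def crs (u v : Fin 2 → ℝ) : ℝ := u 0 * v 1 - u 1 * v 0

/-- A finite element map.  `P` gives the nodes, `θ` the nodal values.  The triangles are indexed by
`ι`; the triangle `T` has the nodes `t T 0, t T 1, t T 2`, is positively oriented and nondegenerate,
and `G T` is the gradient on `T` of the affine map with the given nodal values.  Every side `(T, m)`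
(from the node `t T m` to the node `t T (m + 1)`) at which `θ` does not vanish at both ends is
matched with exactly one other side, `σ (T, m)`, which has the same end points and the opposite
direction (the side seen from the neighbouring triangle). -/
structure IsMesh {V ι : Type} (P θ : V → (Fin 2 → ℝ)) (t : ι → Fin 3 → V)
    (σ : ι × Fin 3 → ι × Fin 3) (G : ι → Matrix (Fin 2) (Fin 2) ℝ) : Prop where
  area : ∀ T, 0 < crs (P (t T 1) - P (t T 0)) (P (t T 2) - P (t T 0))
  grad : ∀ T m, G T *ᵥ (P (t T (m + 1)) - P (t T m)) = θ (t T (m + 1)) - θ (t T m)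
  invol : ∀ a : ι × Fin 3, ¬(θ (t a.1 a.2) = 0 ∧ θ (t a.1 (a.2 + 1)) = 0) → σ (σ a) = a
  left : ∀ a : ι × Fin 3, ¬(θ (t a.1 a.2) = 0 ∧ θ (t a.1 (a.2 + 1)) = 0) →
    t (σ a).1 (σ a).2 = t a.1 (a.2 + 1)
  right : ∀ a : ι × Fin 3, ¬(θ (t a.1 a.2) = 0 ∧ θ (t a.1 (a.2 + 1)) = 0) →
    t (σ a).1 ((σ a).2 + 1) = t a.1 a.2

/-- The number attached to the side `m` of the triangle `T` (the cross product of the two nodal
values), corrected by a potential `c` on the nodes. -/
def flow {V ι : Type} (θ : V → (Fin 2 → ℝ)) (t : ι → Fin 3 → V) (c : V → ℝ) (T : ι) (m : Fin 3) :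
    ℝ :=
  crs (θ (t T m)) (θ (t T (m + 1))) + (c (t T (m + 1)) - c (t T m))

/-- Twice the area of the triangle `T`. -/
def ar {V ι : Type} (P : V → (Fin 2 → ℝ)) (t : ι → Fin 3 → V) (T : ι) : ℝ :=
  crs (P (t T 1) - P (t T 0)) (P (t T 2) - P (t T 0))

end Pool.Agent.Helper188.Morrey
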