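import Pool.Agent.Helper188.Morrey.Support

set_option autoImplicit false

open Matrix Set Filter Topology MeasureTheory
open scoped NNReal ENNReal

namespace Pool.Agent.Helper188.Morrey

section

variable {ϑ : (Fin 2 → ℝ) → (Fin 2 → ℝ)} {Ω : Set (Fin 2 → ℝ)}

theorem grad_apply (x : Fin 2 → ℝ) (i j : Fin 2) :
    grad ϑ x i j = fderiv ℝ ϑ x (Pi.single j 1) i := by
  simp [grad, LinearMap.toMatrix'_apply]

theorem measurable_grad (i j : Fin 2) : Measurable (fun x => grad ϑ x i j) := by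
  have h1 : Measurable (fun x => fderiv ℝ ϑ x) := measurable_fderiv ℝ ϑ
  simp only [grad_apply]
  have h2 : Continuous (fun L : (Fin 2 → ℝ) →L[ℝ] (Fin 2 → ℝ) => L (Pi.single j 1) i) := by
    fun_prop
  exact h2.measurable.comp h1

theorem grad_bound {K : ℝ≥0} (hK : LipschitzWith K ϑ) (x : Fin 2 → ℝ) (i j : Fin 2) :
    |grad ϑ x i j| ≤ K := by
  rw [grad_apply]
  have h1 : ‖fderiv ℝ ϑ x‖ ≤ K := norm_fderiv_le_of_lipschitz ℝ hK
  have h2 : ‖fderiv ℝ ϑ x (Pi.single j 1)‖ ≤ K * 1 := by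
    refine (ContinuousLinearMap.le_opNorm _ _).trans ?_
    refine mul_le_mul h1 ?_ (norm_nonneg _) K.2
    refine (pi_norm_le_iff_of_nonneg zero_le_one).2 fun k => ?_
    rw [Pi.single_apply]
    split_ifs <;> simp
  have h3 := norm_le_pi_norm (fderiv ℝ ϑ x (Pi.single j 1)) i
  rw [Real.norm_eq_abs] at h3
  linarith

/-- the gradient vanishes almost everywhere off `Ω` -/
theorem grad_off {K : ℝ≥0} (hK : LipschitzWith K ϑ) (hΩ : IsOpen Ω) (h0 : ∀ x, x ∉ Ω → ϑ x = 0) :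
    ∀ᵐ x ∂(volume.restrict Ωᶜ), grad ϑ x = 0 := by
  have hd : ∀ᵐ x ∂(volume : Measure (Fin 2 → ℝ)), DifferentiableAt ℝ ϑ x := hK.ae_differentiableAt
  set s : Set (Fin 2 → ℝ) := Ωᶜ ∩ {x | DifferentiableAt ℝ ϑ x} with hs
  have hsm : MeasurableSet s := hΩ.measurableSet.compl.inter (measurableSet_of_differentiableAt ℝ ϑ)
  have happ : ApproximatesLinearOn ϑ (0 : (Fin 2 → ℝ) →L[ℝ] (Fin 2 → ℝ)) s 0 := by
    intro x hx y hy
    rw [h0 x hx.1, h0 y hy.1]
    simp
  have h1 := happ.norm_fderiv_sub_le volume hsm (fun x => fderiv ℝ ϑ x)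
    (fun x hx => hx.2.hasFDerivAt.hasFDerivWithinAt)
  have h2 : ∀ᵐ x ∂(volume.restrict Ωᶜ), x ∈ s := by
    filter_upwards [ae_restrict_of_ae hd, ae_restrict_mem hΩ.measurableSet.compl] with x h3 h4
    exact ⟨h4, h3⟩
  have h3 : volume.restrict Ωᶜ ≤ volume.restrict s + volume.restrict (Ωᶜ \ s) := by
    rw [← Measure.restrict_union disjoint_sdiff_self_right (hΩ.measurableSet.compl.diff hsm)]
    exact Measure.restrict_mono (by rw [union_sdiff_self]; exact subset_union_right) le_rfl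
  have h4 : ∀ᵐ x ∂(volume : Measure (Fin 2 → ℝ)), x ∈ s → ‖fderiv ℝ ϑ x - 0‖₊ ≤ 0 :=
    (ae_restrict_iff' hsm).1 h1
  filter_upwards [h2, ae_restrict_of_ae h4] with x h5 h6
  have h7 := h6 h5
  rw [sub_zero, nonpos_iff_eq_zero, nnnorm_eq_zero] at h7
  ext i j
  rw [grad_apply, h7]
  simp

/-- the integral of the gradient vanishes -/
theorem integral_grad {K : ℝ≥0} (hK : LipschitzWith K ϑ) (hΩ : IsOpen Ω)
    (hb : Bornology.IsBounded Ω) (h0 : ∀ x, x ∉ Ω → ϑ x = 0) (i j : Fin 2) :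
    ∫ x in Ω, grad ϑ x i j = 0 := by
  have hcs : HasCompactSupport (fun x => ϑ x i) := by
    refine HasCompactSupport.intro (K := closure Ω) hb.isCompact_closure fun x hx => ?_
    rw [h0 x (fun h => hx (subset_closure h))]
    rfl
  have hL : LipschitzWith K (fun x => ϑ x i) := fun x y => (edist_le_pi_edist _ _ i).trans (hK x y)
  have h1 : ∫ x, grad ϑ x i j = 0 := by
    have h2 := LipschitzWith.integral_lineDeriv_mul_eq (μ := (volume : Measure (Fin 2 → ℝ)))
      (LipschitzWith.const (1 : ℝ) : LipschitzWith 0 (fun _ : Fin 2 → ℝ => (1 : ℝ))) hL hcs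
      (-(Pi.single j 1))
    simp only [neg_neg, mul_one] at h2
    have h3 : ∀ x : Fin 2 → ℝ, lineDeriv ℝ (fun _ : Fin 2 → ℝ => (1 : ℝ)) x (-(Pi.single j 1)) = 0 :=
      fun x => by simp [lineDeriv]
    simp only [h3, zero_mul, integral_zero] at h2
    rw [← h2.symm]
    refine integral_congr_ae ?_
    filter_upwards [hK.ae_differentiableAt] with x hx
    rw [grad_apply]
    have h4 : HasFDerivAt (fun x => ϑ x i)
        ((ContinuousLinearMap.proj (R := ℝ) (φ := fun _ : Fin 2 => ℝ) i).comp (fderiv ℝ ϑ x)) x :=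
      (ContinuousLinearMap.proj (R := ℝ) (φ := fun _ : Fin 2 => ℝ) i).hasFDerivAt.comp x
        hx.hasFDerivAt
    rw [h4.differentiableAt.lineDeriv_eq_fderiv, h4.fderiv]
    rfl
  rw [← h1]
  refine setIntegral_eq_integral_of_ae_compl_eq_zero ?_
  have := grad_off hK hΩ h0
  rw [ae_restrict_iff' hΩ.measurableSet.compl] at this
  filter_upwards [this] with x hx hx'
  rw [hx hx']
  rfl

end

end Pool.Agent.Helper188.Morrey
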