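import Pool.Agent.Helper188.Morrey.Support

set_option autoImplicit false

open Matrix Set Filter Topology

namespace Pool.Agent.Helper188.Morrey

section

variable {V ι : Type} {P θ : V → (Fin 2 → ℝ)} {t : ι → Fin 3 → V}
  {σ : ι × Fin 3 → ι × Fin 3} {G : ι → Matrix (Fin 2) (Fin 2) ℝ}

theorem crs_mulVec (A : M2) (u v : Fin 2 → ℝ) : crs (A *ᵥ u) (A *ᵥ v) = A.det * crs u v := by
  simp only [crs, mulVec, dotProduct, Fin.sum_univ_two, det_fin_two]
  ring

theorem det_eq (h : IsMesh P θ t σ G) (c : V → ℝ) (T : ι) :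
    ar P t T * (G T).det = ∑ m : Fin 3, flow θ t c T m := by
  have h0 := h.grad T 0
  have h2 := h.grad T 2
  have e2 : (2 : Fin 3) + 1 = 0 := rfl
  have e0 : (0 : Fin 3) + 1 = 1 := rfl
  have e1 : (1 : Fin 3) + 1 = 2 := rfl
  rw [e2] at h2
  rw [e0] at h0
  have h3 : G T *ᵥ (P (t T 2) - P (t T 0)) = θ (t T 2) - θ (t T 0) := by
    rw [← neg_sub (P (t T 0)), mulVec_neg, h2, neg_sub]
  rw [mul_comm, ar, ← crs_mulVec, h0, h3, Fin.sum_univ_three]
  simp only [flow, e0, e1, e2, crs, Pi.sub_apply]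
  ring

theorem side_ne (h : IsMesh P θ t σ G) (T : ι) (m : Fin 3) : P (t T (m + 1)) - P (t T m) ≠ 0 := by
  intro h0
  have ha := h.area T
  have e2 : (2 : Fin 3) + 1 = 0 := rfl
  have e0 : (0 : Fin 3) + 1 = 1 := rfl
  have e1 : (1 : Fin 3) + 1 = 2 := rfl
  rw [sub_eq_zero] at h0
  fin_cases m
  · simp only [Fin.zero_eta, e0] at h0
    rw [h0] at ha; simp [crs] at ha
  · simp only [Fin.mk_one, e1] at h0
    rw [h0] at ha
    simp only [crs, Pi.sub_apply] at ha
    nlinarith
  · simp only [Fin.reduceFinMk, e2] at h0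
    rw [h0] at ha; simp [crs] at ha

theorem det_zero_of_mulVec {A : M2} {v : Fin 2 → ℝ} (hv : v ≠ 0) (h : A *ᵥ v = 0) : A.det = 0 := by
  by_contra hd
  exact hv (Matrix.eq_zero_of_mulVec_eq_zero hd h)

/-- Jensen's inequality over a mesh with a sign condition. -/
theorem mesh_ineq [Fintype ι] (h : IsMesh P θ t σ G) (c : V → ℝ) (hc : ∀ i, θ i = 0 → c i = 0)
    (hs : ∀ T, (∀ m, 0 ≤ flow θ t c T m) ∨ (∀ m, flow θ t c T m ≤ 0))
    {W : M2 → ℝ} (hW : RankOneConvex W) (F₀ : M2) :
    0 ≤ ∑ T, ar P t T * (W (F₀ + G T) - W F₀) := by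
  obtain ⟨l, hl⟩ := exists_support hW F₀
  set g : M2 → ℝ := fun A => W (F₀ + A) - W F₀ - l A with hg
  have hg0 : ∀ R : M2, R.det = 0 → 0 ≤ g R := fun R hR => by
    have := hl R hR
    simp only [hg]; linarith
  -- the flow is antisymmetric
  have hfl : ∀ a : ι × Fin 3, ¬(θ (t a.1 a.2) = 0 ∧ θ (t a.1 (a.2 + 1)) = 0) →
      flow θ t c (σ a).1 (σ a).2 = - flow θ t c a.1 a.2 := by
    intro a ha
    simp only [flow, h.left a ha, h.right a ha, crs]
    ring
  have hact : ∀ a : ι × Fin 3, (θ (t a.1 a.2) = 0 ∧ θ (t a.1 (a.2 + 1)) = 0) →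
      flow θ t c a.1 a.2 = 0 := by
    rintro a ⟨h1, h2⟩
    simp only [flow, h1, h2, crs, hc _ h1, hc _ h2]
    simp
  -- the active sides and the involution on all sides
  classical
  set act : ι × Fin 3 → Prop := fun a => ¬(θ (t a.1 a.2) = 0 ∧ θ (t a.1 (a.2 + 1)) = 0) with hactd
  have hactσ : ∀ a, act a → act (σ a) := by
    intro a ha h1
    apply ha
    rw [h.left a ha, h.right a ha] at h1
    exact ⟨h1.2, h1.1⟩
  set τ : ι × Fin 3 → ι × Fin 3 := fun a => if act a then σ a else a with hτ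
  have hτi : Function.Involutive τ := by
    intro a
    by_cases ha : act a
    · simp only [hτ, if_pos ha, if_pos (hactσ a ha)]
      exact h.invol a ha
    · simp only [hτ, if_neg ha]
  have hsum : ∀ {E : Type} [AddCommGroup E] (f : ι × Fin 3 → E),
      ∑ a, f (τ a) = ∑ a, f a := fun f => Equiv.sum_comp (hτi.toPerm τ) f
  -- the integral of the gradient vanishes
  set B : ι × Fin 3 → M2 := fun a => vecMulVec (θ (t a.1 a.2) + θ (t a.1 (a.2 + 1)))
    ![(P (t a.1 (a.2 + 1)) - P (t a.1 a.2)) 1, -(P (t a.1 (a.2 + 1)) - P (t a.1 a.2)) 0] with hB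
  have e2 : (2 : Fin 3) + 1 = 0 := rfl
  have e0 : (0 : Fin 3) + 1 = 1 := rfl
  have e1 : (1 : Fin 3) + 1 = 2 := rfl
  have hBsum : ∀ T, ar P t T • G T = ∑ m : Fin 3, B (T, m) := by
    intro T
    have h0 := h.grad T 0
    have h2 := h.grad T 2
    rw [e2] at h2
    rw [e0] at h0
    ext i j
    have h0i := congrFun h0 i
    have h2i := congrFun h2 i
    simp only [mulVec, dotProduct, Fin.sum_univ_two, Pi.sub_apply] at h0i h2i
    rw [Fin.sum_univ_three]
    simp only [hB, Matrix.add_apply, vecMulVec_apply, Matrix.smul_apply, smul_eq_mul, ar, crs,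
      Pi.add_apply, Pi.sub_apply, e0, e1, e2]
    fin_cases j
    · simp only [Fin.zero_eta, cons_val_zero]
      linear_combination ((P (t T 2)) 1 - (P (t T 0)) 1) * h0i + ((P (t T 1)) 1 - (P (t T 0)) 1) * h2i
    · simp only [Fin.mk_one, cons_val_one, cons_val_fin_one]
      linear_combination -((P (t T 2)) 0 - (P (t T 0)) 0) * h0i - ((P (t T 1)) 0 - (P (t T 0)) 0) * h2i
  have hBanti : ∀ a, B a + B (τ a) = 0 := by
    intro a
    by_cases ha : act a
    · simp only [hτ, if_pos ha, hB, h.left a ha, h.right a ha]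
      ext i j
      simp only [Matrix.add_apply, vecMulVec_apply, Pi.add_apply, Matrix.zero_apply, Pi.sub_apply]
      fin_cases j
      · simp only [Fin.zero_eta, cons_val_zero]
        ring
      · simp only [Fin.mk_one, cons_val_one, cons_val_fin_one]
        ring
    · simp only [hτ, if_neg ha]
      simp only [hactd, not_not] at ha
      simp only [hB, ha.1, ha.2, add_zero]
      ext i j
      simp [vecMulVec_apply]
  have hB0 : ∑ T, ar P t T • G T = 0 := by
    have h1 : ∑ T, ar P t T • G T = ∑ a, B a := by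
      rw [Fintype.sum_prod_type]
      exact Finset.sum_congr rfl fun T _ => hBsum T
    have h2 : ∑ a, B a + ∑ a, B a = 0 := by
      nth_rewrite 2 [← hsum B]
      rw [← Finset.sum_add_distrib]
      exact Finset.sum_eq_zero fun a _ => hBanti a
    rw [h1]
    have h3 : (2 : ℝ) • ∑ a, B a = 0 := by rw [two_smul]; exact h2
    exact (smul_eq_zero.1 h3).resolve_left (by norm_num)
  -- pairs
  set k : ι × Fin 3 → ℝ := fun a => flow θ t c a.1 a.2 * (g (G a.1) / (G a.1).det) with hk
  have hkpos : ∀ a, act a → 0 < flow θ t c a.1 a.2 → 0 ≤ k a + k (σ a) := by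
    intro a ha hf
    have hA : 0 < (G a.1).det := by
      have h1 : ∀ m, 0 ≤ flow θ t c a.1 m := by
        rcases hs a.1 with h1 | h1
        · exact h1
        · exact absurd (h1 a.2) (not_le.2 hf)
      have h2 : 0 < ∑ m : Fin 3, flow θ t c a.1 m :=
        Finset.sum_pos' (fun m _ => h1 m) ⟨a.2, Finset.mem_univ _, hf⟩
      rw [← det_eq h] at h2
      exact (pos_iff_pos_of_mul_pos h2).1 (h.area a.1)
    have hf' : flow θ t c (σ a).1 (σ a).2 < 0 := by rw [hfl a ha]; linarith
    have hBn : (G (σ a).1).det < 0 := by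
      have h1 : ∀ m, flow θ t c (σ a).1 m ≤ 0 := by
        rcases hs (σ a).1 with h1 | h1
        · exact absurd (h1 (σ a).2) (not_le.2 hf')
        · exact h1
      have h2 : ∑ m : Fin 3, flow θ t c (σ a).1 m < 0 :=
        Finset.sum_neg' (fun m _ => h1 m) ⟨(σ a).2, Finset.mem_univ _, hf'⟩
      rw [← det_eq h] at h2
      have h3 := h.area (σ a).1
      have h4 : 0 < ar P t (σ a).1 := h3
      by_contra h5
      push Not at h5
      have := mul_nonneg h4.le h5
      linarith
    have hAB : (G a.1 - G (σ a).1).det = 0 := by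
      refine det_zero_of_mulVec (side_ne h a.1 a.2) ?_
      have h1 := h.grad a.1 a.2
      have h2 := h.grad (σ a).1 (σ a).2
      rw [h.left a ha, h.right a ha] at h2
      rw [sub_mulVec, h1, ← neg_sub (P (t a.1 a.2)), mulVec_neg, h2]
      abel
    have h1 := pair_ineq hW F₀ l hl hA hBn hAB
    have h2 : k a + k (σ a) = flow θ t c a.1 a.2 * (g (G a.1) / (G a.1).det
        + g (G (σ a).1) / (-(G (σ a).1).det)) := by
      simp only [hk, hfl a ha]
      rw [div_neg]
      ring
    rw [h2]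
    exact mul_nonneg hf.le h1
  have hkτ : ∀ a, 0 ≤ k a + k (τ a) := by
    intro a
    by_cases ha : act a
    · simp only [hτ, if_pos ha]
      rcases lt_trichotomy (flow θ t c a.1 a.2) 0 with hf | hf | hf
      · have h1 := hkpos (σ a) (hactσ a ha) (by rw [hfl a ha]; linarith)
        rw [h.invol a ha] at h1
        linarith
      · have h1 : k a = 0 := by simp only [hk, hf, zero_mul]
        have h2 : k (σ a) = 0 := by simp only [hk, hfl a ha, hf, neg_zero, zero_mul]
        rw [h1, h2]; simp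
      · exact hkpos a ha hf
    · simp only [hτ, if_neg ha]
      have h1 : k a = 0 := by
        simp only [hactd, not_not] at ha
        simp only [hk, hact a ha, zero_mul]
      rw [h1]; simp
  have hksum : 0 ≤ ∑ a, k a := by
    have h1 : 0 ≤ ∑ a, (k a + k (τ a)) := Finset.sum_nonneg fun a _ => hkτ a
    rw [Finset.sum_add_distrib, hsum k] at h1
    linarith
  have hT : ∀ T, ∑ m : Fin 3, k (T, m) ≤ ar P t T * g (G T) := by
    intro T
    simp only [hk]
    rw [← Finset.sum_mul, ← det_eq h]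
    by_cases hd : (G T).det = 0
    · rw [hd]; simp only [mul_zero, zero_mul]
      exact mul_nonneg (h.area T).le (hg0 _ hd)
    · refine le_of_eq ?_
      field_simp
  have hfin : 0 ≤ ∑ T, ar P t T * g (G T) := by
    refine hksum.trans ?_
    rw [Fintype.sum_prod_type]
    exact Finset.sum_le_sum fun T _ => hT T
  have hl0 : ∑ T, ar P t T * l (G T) = 0 := by
    have := congrArg l hB0
    rw [map_sum, map_zero] at this
    simpa only [map_smul, smul_eq_mul] using this
  have : ∑ T, ar P t T * (W (F₀ + G T) - W F₀)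
      = ∑ T, ar P t T * g (G T) + ∑ T, ar P t T * l (G T) := by
    rw [← Finset.sum_add_distrib]
    refine Finset.sum_congr rfl fun T _ => ?_
    simp only [hg]; ring
  rw [this, hl0, add_zero]
  exact hfin

/-- A zero in a triangle gives the sign condition. -/
theorem sign_of_zero (θ : V → (Fin 2 → ℝ)) (t : ι → Fin 3 → V) (T : ι) (s : Fin 3 → ℝ)
    (hs : ∀ m, 0 ≤ s m) (h1 : ∑ m, s m = 1) (h0 : ∑ m, s m • θ (t T m) = 0) :
    (∀ m, 0 ≤ flow θ t 0 T m) ∨ (∀ m, flow θ t 0 T m ≤ 0) := by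
  have e2 : (2 : Fin 3) + 1 = 0 := rfl
  have e0 : (0 : Fin 3) + 1 = 1 := rfl
  have e1 : (1 : Fin 3) + 1 = 2 := rfl
  rw [Fin.sum_univ_three] at h0 h1
  have hx := congrFun h0 0
  have hy := congrFun h0 1
  simp only [Pi.add_apply, Pi.smul_apply, smul_eq_mul, Pi.zero_apply] at hx hy
  set D := flow θ t 0 T 0 + flow θ t 0 T 1 + flow θ t 0 T 2 with hD
  have f0 : flow θ t 0 T 0 = s 2 * D := by
    simp only [hD, flow, e0, e1, e2, crs, Pi.zero_apply, sub_zero, add_zero]
    linear_combination (θ (t T 0) 0 * θ (t T 1) 1 - θ (t T 0) 1 * θ (t T 1) 0) * (-h1)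
      + (θ (t T 1) 1 - θ (t T 0) 1) * hx - (θ (t T 1) 0 - θ (t T 0) 0) * hy
  have f1 : flow θ t 0 T 1 = s 0 * D := by
    simp only [hD, flow, e0, e1, e2, crs, Pi.zero_apply, sub_zero, add_zero]
    linear_combination (θ (t T 1) 0 * θ (t T 2) 1 - θ (t T 1) 1 * θ (t T 2) 0) * (-h1)
      + (θ (t T 2) 1 - θ (t T 1) 1) * hx - (θ (t T 2) 0 - θ (t T 1) 0) * hy
  have f2 : flow θ t 0 T 2 = s 1 * D := by
    simp only [hD, flow, e0, e1, e2, crs, Pi.zero_apply, sub_zero, add_zero]
    linear_combination (θ (t T 2) 0 * θ (t T 0) 1 - θ (t T 2) 1 * θ (t T 0) 0) * (-h1)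
      + (θ (t T 0) 1 - θ (t T 2) 1) * hx - (θ (t T 0) 0 - θ (t T 2) 0) * hy
  rcases le_total 0 D with h | h
  · left
    intro m
    fin_cases m
    · simp only [Fin.zero_eta, f0]; exact mul_nonneg (hs 2) h
    · simp only [Fin.mk_one, f1]; exact mul_nonneg (hs 0) h
    · simp only [Fin.reduceFinMk, f2]; exact mul_nonneg (hs 1) h
  · right
    intro m
    fin_cases m
    · simp only [Fin.zero_eta, f0]; exact mul_nonpos_of_nonneg_of_nonpos (hs 2) h
    · simp only [Fin.mk_one, f1]; exact mul_nonpos_of_nonneg_of_nonpos (hs 0) h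
    · simp only [Fin.reduceFinMk, f2]; exact mul_nonpos_of_nonneg_of_nonpos (hs 1) h

end

end Pool.Agent.Helper188.Morrey
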