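import Pool.Agent.Helper188.Morrey.Lip

set_option autoImplicit false

open Matrix Set Filter Topology MeasureTheory
open scoped NNReal ENNReal

namespace Pool.Agent.Helper188.Morrey

section

variable {ϑ : (Fin 2 → ℝ) → (Fin 2 → ℝ)} {Ω : Set (Fin 2 → ℝ)}

theorem meas_comp {φ : M2 → ℝ} (hφ : Continuous φ) : Measurable (fun x => φ (grad ϑ x)) := by
  have h1 : Continuous (fun q : ℝ × ℝ × ℝ × ℝ => φ !![q.1, q.2.1; q.2.2.1, q.2.2.2]) := by
    fun_prop
  have h2 : Measurable (fun x => ((grad ϑ x 0 0, grad ϑ x 0 1, grad ϑ x 1 0, grad ϑ x 1 1) :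
      ℝ × ℝ × ℝ × ℝ)) :=
    (measurable_grad 0 0).prodMk ((measurable_grad 0 1).prodMk ((measurable_grad 1 0).prodMk
      (measurable_grad 1 1)))
  have h3 := h1.measurable.comp h2
  have e : (fun x => φ (grad ϑ x)) = (fun q : ℝ × ℝ × ℝ × ℝ => φ !![q.1, q.2.1; q.2.2.1, q.2.2.2]) ∘
      (fun x => ((grad ϑ x 0 0, grad ϑ x 0 1, grad ϑ x 1 0, grad ϑ x 1 1) : ℝ × ℝ × ℝ × ℝ)) := by
    funext x
    simp only [Function.comp]
    congr 1
    ext i j; fin_cases i <;> fin_cases j <;> rfl
  rw [e]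
  exact h3

theorem bound_comp {K : ℝ≥0} (hK : LipschitzWith K ϑ) {φ : M2 → ℝ} (hφ : Continuous φ) :
    ∃ C : ℝ, ∀ x, ‖φ (grad ϑ x)‖ ≤ C := by
  have hc : IsCompact (Set.pi univ fun _ : Fin 2 => Set.pi univ fun _ : Fin 2 =>
      Icc (-(K : ℝ)) K) :=
    isCompact_univ_pi fun _ => isCompact_univ_pi fun _ => isCompact_Icc
  obtain ⟨C, hC⟩ := hc.exists_bound_of_continuousOn (f := fun A : Fin 2 → Fin 2 → ℝ => φ (Matrix.of A))
    (by
      have : Continuous (fun A : Fin 2 → Fin 2 → ℝ => φ (Matrix.of A)) := hφ.comp continuous_id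
      exact this.continuousOn)
  refine ⟨C, fun x => hC (grad ϑ x) ?_⟩
  intro i _ j _
  exact abs_le.1 (grad_bound hK x i j)

theorem integrable_comp {K : ℝ≥0} (hK : LipschitzWith K ϑ) (hb : Bornology.IsBounded Ω)
    {φ : M2 → ℝ} (hφ : Continuous φ) :
    Integrable (fun x => φ (grad ϑ x)) (volume.restrict Ω) := by
  have : IsFiniteMeasure (volume.restrict Ω) := ⟨by
    rw [Measure.restrict_apply_univ]; exact hb.measure_lt_top⟩
  obtain ⟨C, hC⟩ := bound_comp hK hφ
  exact Integrable.of_bound (meas_comp hφ).aestronglyMeasurable C (Eventually.of_forall hC)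

theorem lin_eq (l : M2 →ₗ[ℝ] ℝ) (A : M2) : l A = A 0 0 * l !![1, 0; 0, 0] + A 0 1 * l !![0, 1; 0, 0]
    + A 1 0 * l !![0, 0; 1, 0] + A 1 1 * l !![0, 0; 0, 1] := by
  have e : A = A 0 0 • !![1, 0; 0, 0] + A 0 1 • !![0, 1; 0, 0] + A 1 0 • !![0, 0; 1, 0]
      + A 1 1 • !![0, 0; 0, 1] := by
    ext i j; fin_cases i <;> fin_cases j <;> simp
  conv_lhs => rw [e]
  simp only [map_add, map_smul, smul_eq_mul]

theorem integral_lin {K : ℝ≥0} (hK : LipschitzWith K ϑ) (hΩ : IsOpen Ω)
    (hb : Bornology.IsBounded Ω) (h0 : ∀ x, x ∉ Ω → ϑ x = 0) (l : M2 →ₗ[ℝ] ℝ) :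
    ∫ x in Ω, l (grad ϑ x) = 0 := by
  have hi : ∀ i j, Integrable (fun x => grad ϑ x i j) (volume.restrict Ω) := fun i j =>
    integrable_comp hK hb (φ := fun A => A i j) (by fun_prop)
  simp only [lin_eq l (grad ϑ _)]
  rw [integral_add, integral_add, integral_add]
  · simp only [integral_mul_const, integral_grad hK hΩ hb h0, zero_mul, add_zero]
  · exact (hi 0 0).mul_const _
  · exact (hi 0 1).mul_const _
  · exact ((hi 0 0).mul_const _).add ((hi 0 1).mul_const _)
  · exact (hi 1 0).mul_const _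
  · exact (((hi 0 0).mul_const _).add ((hi 0 1).mul_const _)).add ((hi 1 0).mul_const _)
  · exact (hi 1 1).mul_const _

/-- **Jensen's inequality for Lipschitz maps, from a transport of the positive part of the
Jacobian to its negative part along rank-one connections.** -/
theorem transport_ineq {W : M2 → ℝ} (hW : RankOneConvex W) (F₀ : M2) {K : ℝ≥0}
    (hK : LipschitzWith K ϑ) (hΩ : IsOpen Ω) (hb : Bornology.IsBounded Ω)
    (h0 : ∀ x, x ∉ Ω → ϑ x = 0) (π : Measure ((Fin 2 → ℝ) × (Fin 2 → ℝ)))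
    (h1 : π.map Prod.fst = (volume.restrict Ω).withDensity
      (fun x => ENNReal.ofReal (grad ϑ x).det))
    (h2 : π.map Prod.snd = (volume.restrict Ω).withDensity
      (fun x => ENNReal.ofReal (-(grad ϑ x).det)))
    (h3 : ∀ᵐ p ∂π, (grad ϑ p.1 - grad ϑ p.2).rank ≤ 1) :
    W F₀ * (volume Ω).toReal ≤ ∫ x in Ω, W (F₀ + grad ϑ x) := by
  obtain ⟨l, hl⟩ := exists_support hW F₀
  have hWc := hW.continuous
  have hlc : Continuous l := LinearMap.continuous_of_finiteDimensional l
  set μ : Measure (Fin 2 → ℝ) := volume.restrict Ω with hμ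
  have : IsFiniteMeasure μ := ⟨by
    rw [hμ, Measure.restrict_apply_univ]; exact hb.measure_lt_top⟩
  set G : M2 → ℝ := fun A => W (F₀ + A) - W F₀ - l A with hG
  have hGc : Continuous G := by fun_prop
  set d : (Fin 2 → ℝ) → ℝ := fun x => (grad ϑ x).det with hd
  have hdm : Measurable d := meas_comp (φ := fun A => A.det) (by fun_prop)
  have hdn : Measurable (fun x => ENNReal.ofReal (-d x)) := hdm.neg.ennreal_ofReal
  have hGm : Measurable (fun x => G (grad ϑ x)) := meas_comp hGc
  have hGi : Integrable (fun x => G (grad ϑ x)) μ := integrable_comp hK hb hGc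
  set p₁ : (Fin 2 → ℝ) → ℝ := fun x => G (grad ϑ x) / d x with hp1
  set p₂ : (Fin 2 → ℝ) → ℝ := fun x => G (grad ϑ x) / (-d x) with hp2
  have hp1m : Measurable p₁ := hGm.div hdm
  have hp2m : Measurable p₂ := hGm.div hdm.neg
  have i1 : Integrable (fun x => (ENNReal.ofReal (d x)).toReal • p₁ x) μ := by
    refine hGi.mono ((hdm.ennreal_ofReal.ennreal_toReal.smul hp1m).aestronglyMeasurable) ?_
    refine Eventually.of_forall fun x => ?_
    rw [norm_smul, ENNReal.toReal_ofReal', hp1]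
    rcases lt_or_ge 0 (d x) with h | h
    · rw [max_eq_left h.le, norm_div, mul_div_cancel₀]
      exact (norm_pos_iff.2 h.ne').ne'
    · rw [max_eq_right h]; simp
  have i2 : Integrable (fun x => (ENNReal.ofReal (-d x)).toReal • p₂ x) μ := by
    refine hGi.mono ((hdm.neg.ennreal_ofReal.ennreal_toReal.smul hp2m).aestronglyMeasurable) ?_
    refine Eventually.of_forall fun x => ?_
    rw [norm_smul, ENNReal.toReal_ofReal', hp2]
    rcases lt_or_ge 0 (-d x) with h | h
    · rw [max_eq_left h.le, norm_div, mul_div_cancel₀]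
      exact (norm_pos_iff.2 h.ne').ne'
    · rw [max_eq_right h]; simp
  have j1 : Integrable p₁ (μ.withDensity (fun x => ENNReal.ofReal (d x))) :=
    (integrable_withDensity_iff_integrable_smul' hdm.ennreal_ofReal
      (Eventually.of_forall fun _ => ENNReal.ofReal_lt_top)).2 i1
  have j2 : Integrable p₂ (μ.withDensity (fun x => ENNReal.ofReal (-d x))) :=
    (integrable_withDensity_iff_integrable_smul' hdm.neg.ennreal_ofReal
      (Eventually.of_forall fun _ => ENNReal.ofReal_lt_top)).2 i2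
  have e1 : ∫ x, (ENNReal.ofReal (d x)).toReal • p₁ x ∂μ = ∫ p, p₁ p.1 ∂π := by
    rw [← integral_withDensity_eq_integral_toReal_smul hdm.ennreal_ofReal
      (Eventually.of_forall fun _ => ENNReal.ofReal_lt_top), ← h1,
      integral_map measurable_fst.aemeasurable hp1m.aestronglyMeasurable]
  have e2 : ∫ x, (ENNReal.ofReal (-d x)).toReal • p₂ x ∂μ = ∫ p, p₂ p.2 ∂π := by
    rw [← integral_withDensity_eq_integral_toReal_smul hdn
      (Eventually.of_forall fun _ => ENNReal.ofReal_lt_top), ← h2,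
      integral_map measurable_snd.aemeasurable hp2m.aestronglyMeasurable]
  have k1 : Integrable (fun p : (Fin 2 → ℝ) × (Fin 2 → ℝ) => p₁ p.1) π := by
    rw [← h1] at j1
    exact (integrable_map_measure hp1m.aestronglyMeasurable measurable_fst.aemeasurable).1 j1
  have k2 : Integrable (fun p : (Fin 2 → ℝ) × (Fin 2 → ℝ) => p₂ p.2) π := by
    rw [← h2] at j2
    exact (integrable_map_measure hp2m.aestronglyMeasurable measurable_snd.aemeasurable).1 j2
  have a1 : ∀ᵐ p ∂π, 0 < d p.1 := by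
    have : ∀ᵐ x ∂(π.map Prod.fst), 0 < d x := by
      rw [h1, ae_withDensity_iff hdm.ennreal_ofReal]
      refine Eventually.of_forall fun x hx => ?_
      by_contra h
      exact hx (ENNReal.ofReal_eq_zero.2 (not_lt.1 h))
    exact ae_of_ae_map measurable_fst.aemeasurable this
  have a2 : ∀ᵐ p ∂π, d p.2 < 0 := by
    have : ∀ᵐ x ∂(π.map Prod.snd), d x < 0 := by
      rw [h2, ae_withDensity_iff hdn]
      refine Eventually.of_forall fun x hx => ?_
      by_contra h
      exact hx (ENNReal.ofReal_eq_zero.2 (by linarith [not_lt.1 h]))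
    exact ae_of_ae_map measurable_snd.aemeasurable this
  have hpos : 0 ≤ ∫ p, p₁ p.1 ∂π + ∫ p, p₂ p.2 ∂π := by
    rw [← integral_add k1 k2]
    refine integral_nonneg_of_ae ?_
    filter_upwards [a1, a2, h3] with p b1 b2 b3
    exact pair_ineq hW F₀ l hl b1 b2 (det_eq_zero_of_rank b3)
  have hge : ∫ x, (ENNReal.ofReal (d x)).toReal • p₁ x ∂μ
      + ∫ x, (ENNReal.ofReal (-d x)).toReal • p₂ x ∂μ ≤ ∫ x, G (grad ϑ x) ∂μ := by
    rw [← integral_add i1 i2]
    refine integral_mono (i1.add i2) hGi fun x => ?_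
    simp only [ENNReal.toReal_ofReal', smul_eq_mul, hp1, hp2]
    rcases lt_trichotomy (d x) 0 with h | h | h
    · rw [max_eq_right h.le, max_eq_left (by linarith : 0 ≤ -d x), zero_mul, zero_add,
        mul_div_cancel₀]
      exact (neg_pos.2 h).ne'
    · rw [h]
      simp only [neg_zero, max_self, zero_mul, add_zero]
      have := hl _ h
      simp only [hG]
      linarith
    · rw [max_eq_left h.le, max_eq_right (by linarith : -d x ≤ 0), zero_mul, add_zero,
        mul_div_cancel₀]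
      exact h.ne'
  rw [e1, e2] at hge
  have hfin : 0 ≤ ∫ x, G (grad ϑ x) ∂μ := hpos.trans hge
  have iW : Integrable (fun x => W (F₀ + grad ϑ x)) μ :=
    integrable_comp hK hb (φ := fun A => W (F₀ + A)) (by fun_prop)
  have il : Integrable (fun x => l (grad ϑ x)) μ := integrable_comp hK hb hlc
  have hsp : ∫ x, G (grad ϑ x) ∂μ = ∫ x, W (F₀ + grad ϑ x) ∂μ - W F₀ * (volume Ω).toReal := by
    have iS : Integrable (fun x => W (F₀ + grad ϑ x) - W F₀) μ := iW.sub (integrable_const _)
    simp only [hG]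
    rw [integral_sub iS il, integral_sub iW (integrable_const _),
      integral_lin hK hΩ hb h0 l, sub_zero, integral_const, hμ]
    simp [Measure.real, mul_comm]
  rw [hsp] at hfin
  linarith

end

end Pool.Agent.Helper188.Morrey
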